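import Pool.Agent.Helper42.KS.Goals

set_option autoImplicit false

namespace Pool.Agent.Helper42.KS.PkLF

open MeasureTheory
open scoped ENNReal NNReal

lemma ee_add (x y : ℝ) : ee (x + y) = ee x * ee y := by
  unfold ee
  rw [← Complex.exp_add]
  congr 1
  push_cast
  ring

lemma ee_int (n : ℤ) : ee (n : ℝ) = 1 := by
  unfold ee
  rw [Complex.exp_eq_one_iff]
  exact ⟨n, by push_cast; ring⟩

lemma ee_zero : ee 0 = 1 := by
  have := ee_int 0
  simpa using this

lemma norm_ee (x : ℝ) : ‖ee x‖ = 1 := by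
  unfold ee
  rw [Complex.norm_exp_ofReal_mul_I]

lemma ee_sum {ι : Type*} (s : Finset ι) (f : ι → ℝ) : ee (∑ i ∈ s, f i) = ∏ i ∈ s, ee (f i) := by
  classical
  induction s using Finset.induction_on with
  | empty => simp [ee_zero]
  | insert a s ha ih => rw [Finset.sum_insert ha, Finset.prod_insert ha, ee_add, ih]

lemma continuous_ee : Continuous ee := by
  unfold ee
  fun_prop

/-- periodicity -/
lemma ee_shift (k q : ℕ) (hq : 1 ≤ q) (a y t : ℤ) :
    ee ((a : ℝ) / q * ((y : ℝ)) ^ k) = ee ((a : ℝ) / q * (((y - q * t : ℤ) : ℝ)) ^ k) := by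
  have hdvd : (q : ℤ) ∣ y ^ k - (y - q * t) ^ k := by
    have h1 : (y - (y - q * t)) ∣ y ^ k - (y - q * t) ^ k := sub_dvd_pow_sub_pow _ _ _
    refine dvd_trans ?_ h1
    exact ⟨t, by ring⟩
  obtain ⟨m, hm⟩ := hdvd
  have hq0 : (q : ℝ) ≠ 0 := by positivity
  have : (a : ℝ) / q * ((y : ℝ)) ^ k = (a : ℝ) / q * (((y - q * t : ℤ) : ℝ)) ^ k + ((a * m : ℤ) : ℝ) := by
    have h2 : ((y : ℝ)) ^ k - (((y - q * t : ℤ) : ℝ)) ^ k = (q : ℝ) * m := by
      exact_mod_cast hm
    have h3 : ((y : ℝ)) ^ k = (((y - q * t : ℤ) : ℝ)) ^ k + (q : ℝ) * m := by linarith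
    rw [h3]
    push_cast
    field_simp
  rw [this, ee_add, ee_int, mul_one]

lemma kerT_split {d : ℕ} (k q L : ℕ) (hq : 1 ≤ q) (a : ℤ) (y : Fin d → ℤ) :
    kerT k (q * L) ((a : ℝ) / q) y =
      ∑ t ∈ box d L, kerT k q ((a : ℝ) / q) (y - (q : ℤ) • t) := by
  classical
  have hqz : (0 : ℤ) < (q : ℤ) := by exact_mod_cast hq
  by_cases h : ∀ i, 0 ≤ y i ∧ y i < ((q * L : ℕ) : ℤ)
  · set t₀ : Fin d → ℤ := fun i => y i / q with ht₀
    have ht₀mem : t₀ ∈ box d L := by
      unfold box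
      rw [Fintype.mem_piFinset]
      intro i
      rw [Finset.mem_Ico]
      refine ⟨Int.ediv_nonneg (h i).1 hqz.le, ?_⟩
      rw [ht₀]
      apply Int.ediv_lt_of_lt_mul hqz
      have := (h i).2
      push_cast at this
      linarith [mul_comm (q : ℤ) (L : ℤ)]
    rw [Finset.sum_eq_single t₀]
    · unfold kerT
      rw [if_pos h, if_pos]
      · rw [Finset.mul_sum, Finset.mul_sum, ee_sum, ee_sum]
        refine Finset.prod_congr rfl fun i _ => ?_
        have := ee_shift k q hq a (y i) (t₀ i)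
        rw [this]
        simp [Pi.sub_apply, Pi.smul_apply, smul_eq_mul]
      · intro i
        simp only [Pi.sub_apply, Pi.smul_apply, smul_eq_mul, ht₀]
        have h1 := Int.emod_nonneg (y i) hqz.ne'
        have h2 := Int.emod_lt_of_pos (y i) hqz
        have h3 := Int.emod_add_mul_ediv (y i) (q : ℤ)
        constructor <;> linarith
    · intro t _ htne
      unfold kerT
      rw [if_neg]
      intro hh
      apply htne
      funext i
      have h1 := (hh i)
      simp only [Pi.sub_apply, Pi.smul_apply, smul_eq_mul] at h1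
      rw [ht₀]
      symm
      simp only
      rw [Int.ediv_eq_iff_of_pos hqz]
      constructor <;> nlinarith [h1.1, h1.2]
    · intro hh
      exact absurd ht₀mem hh
  · unfold kerT
    rw [if_neg h]
    symm
    apply Finset.sum_eq_zero
    intro t ht
    rw [if_neg]
    intro hh
    apply h
    intro i
    have h1 := hh i
    simp only [Pi.sub_apply, Pi.smul_apply, smul_eq_mul] at h1
    unfold box at ht
    rw [Fintype.mem_piFinset] at ht
    have h2 := ht i
    rw [Finset.mem_Ico] at h2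
    push_cast
    have h3 : (0 : ℤ) ≤ (q : ℤ) * t i := mul_nonneg hqz.le h2.1
    have h4 : (q : ℤ) * t i + q ≤ q * L := by
      have : t i + 1 ≤ L := h2.2
      nlinarith
    constructor <;> linarith [h1.1, h1.2]

lemma app_split {d : ℕ} (k q L : ℕ) (hq : 1 ≤ q) (a : ℤ) (E : Finset (Fin d → ℤ)) (x : Fin d → ℤ) :
    app (kerT k (q * L) ((a : ℝ) / q)) E x =
      ∑ t ∈ box d L, app (kerT k q ((a : ℝ) / q)) E (x - (q : ℤ) • t) := by
  unfold app
  rw [Finset.sum_comm]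
  refine Finset.sum_congr rfl fun z _ => ?_
  rw [kerT_split k q L hq a]
  refine Finset.sum_congr rfl fun t _ => ?_
  congr 1
  abel

lemma prod_pq (k q d : ℕ) (a : ℤ) (ξ : Fin d → ℝ) :
    ∑ y ∈ box d q, ((q : ℂ) ^ d)⁻¹ * kerT k q ((a : ℝ) / q) y * ee (∑ i, (y i : ℝ) * ξ i) =
      ∏ ν, pq k a q (ξ ν) := by
  classical
  have hIco : ∀ f : ℤ → ℂ, ∑ y ∈ Finset.Ico (0 : ℤ) (q : ℤ), f y = ∑ y ∈ Finset.range q, f (y : ℤ) := by
    intro f
    have : Finset.Ico (0 : ℤ) (q : ℤ) = (Finset.range q).map Nat.castEmbedding := by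
      ext z
      simp only [Finset.mem_Ico, Finset.mem_map, Finset.mem_range, Nat.castEmbedding_apply]
      constructor
      · rintro ⟨h1, h2⟩
        exact ⟨z.toNat, by omega, by simp [Int.toNat_of_nonneg h1]⟩
      · rintro ⟨n, hn, rfl⟩
        constructor
        · positivity
        · exact_mod_cast hn
    rw [this, Finset.sum_map]
    rfl
  have h1 : ∏ ν, pq k a q (ξ ν) =
      ((q : ℂ) ^ d)⁻¹ * ∏ ν, ∑ y ∈ Finset.Ico (0 : ℤ) (q : ℤ), ee (a * (y : ℝ) ^ k / q + ξ ν * y) := by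
    unfold pq
    rw [Finset.prod_mul_distrib, Finset.prod_const, Finset.card_univ, Fintype.card_fin, inv_pow]
    congr 1
    refine Finset.prod_congr rfl fun ν _ => ?_
    rw [hIco]
    refine Finset.sum_congr rfl fun y _ => ?_
    simp
  rw [h1, Finset.prod_univ_sum, Finset.mul_sum]
  unfold box
  refine Finset.sum_congr rfl fun y hy => ?_
  rw [mul_assoc]
  congr 1
  rw [Fintype.mem_piFinset] at hy
  unfold kerT
  rw [if_pos]
  · rw [Finset.mul_sum, ee_sum, ee_sum, ← Finset.prod_mul_distrib]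
    refine Finset.prod_congr rfl fun i _ => ?_
    rw [← ee_add]
    congr 1
    ring
  · intro i
    have := hy i
    rw [Finset.mem_Ico] at this
    exact this

theorem thm : G_PQ → G_BES → G_PAR → G_MAXQ → G_LF := by
  classical
  intro hPQ hBES hPAR hMAXQ k d ε hk hd hε
  obtain ⟨C₀, hC₀⟩ := hPQ k ε hk hε
  obtain ⟨C₁, hC₁⟩ := hMAXQ d
  set C₂ : ℝ := max C₁ 0 with hC₂
  set C₃ : ℝ := max C₀ 0 with hC₃
  refine ⟨C₂ * C₃ ^ (2 * d), ?_⟩
  intro q a j E X hq hcop hj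
  have hq0 : (0 : ℝ) < q := by exact_mod_cast hq
  set L : (Fin d → ℤ) → ℕ := fun x => 2 ^ (j x) / q with hL
  have hL1 : ∀ x, 1 ≤ L x := fun x => by
    rw [hL]
    exact (Nat.one_le_div_iff (by omega)).2 (hj x)
  set K : (Fin d → ℤ) → ℂ := fun y => ((q : ℂ) ^ d)⁻¹ * kerT k q ((a : ℝ) / q) y with hK
  set g : (Fin d → ℤ) → ℝ := fun z => ‖app K E z‖ with hg
  set G : Finset (Fin d → ℤ) := E.biUnion (fun e => (box d q).image (fun y => e + y)) with hG
  have happK : ∀ z, app K E z = ((q : ℂ) ^ d)⁻¹ * app (kerT k q ((a : ℝ) / q)) E z := by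
    intro z
    unfold app
    rw [hK, Finset.mul_sum]
  have hKbox : ∀ y, y ∉ box d q → K y = 0 := by
    intro y hy
    rw [hK]
    simp only
    unfold kerT
    rw [if_neg, mul_zero]
    intro hh
    apply hy
    unfold box
    rw [Fintype.mem_piFinset]
    intro i
    rw [Finset.mem_Ico]
    exact hh i
  have hgG : ∀ z, z ∉ G → g z = 0 := by
    intro z hz
    rw [hg]
    simp only
    rw [norm_eq_zero]
    unfold app
    apply Finset.sum_eq_zero
    intro e he
    apply hKbox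
    intro hbox
    apply hz
    rw [hG, Finset.mem_biUnion]
    refine ⟨e, he, ?_⟩
    rw [Finset.mem_image]
    exact ⟨z - e, hbox, by abel⟩
  -- pointwise bound
  have hpt : ∀ x, ‖(((q * (2 ^ (j x) / q) : ℕ) : ℂ) ^ d)⁻¹ *
      app (kerT k (q * (2 ^ (j x) / q)) ((a : ℝ) / q)) E x‖ ≤
      (((L x : ℝ) ^ d)⁻¹ * ∑ t ∈ box d (L x), g (x - (q : ℤ) • t)) := by
    intro x
    rw [app_split k q _ hq a E x]
    have h1 : (((q * (2 ^ (j x) / q) : ℕ) : ℂ) ^ d)⁻¹ *
        ∑ t ∈ box d (2 ^ (j x) / q), app (kerT k q ((a : ℝ) / q)) E (x - (q : ℤ) • t) =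
        (((L x : ℕ) : ℂ) ^ d)⁻¹ * ∑ t ∈ box d (L x), app K E (x - (q : ℤ) • t) := by
      have h2 : ∀ z, app (kerT k q ((a : ℝ) / q)) E z = ((q : ℂ) ^ d) * app K E z := by
        intro z
        rw [happK, ← mul_assoc, mul_inv_cancel₀, one_mul]
        have : (q : ℂ) ≠ 0 := by exact_mod_cast hq0.ne'
        exact pow_ne_zero _ this
      simp only [h2]
      rw [← Finset.mul_sum, ← mul_assoc]
      congr 1
      have hqc : (q : ℂ) ≠ 0 := by exact_mod_cast hq0.ne'
      rw [Nat.cast_mul, mul_pow, mul_inv, mul_comm ((q : ℂ) ^ d)⁻¹, mul_assoc,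
        inv_mul_cancel₀ (pow_ne_zero _ hqc), mul_one]
    rw [h1, norm_mul, norm_inv, norm_pow, Complex.norm_natCast]
    refine mul_le_mul_of_nonneg_left ?_ (by positivity)
    exact norm_sum_le _ _
  have hM := hC₁ q G X g L hq (fun z => norm_nonneg _) hgG hL1
  have hstep1 : ∑ x ∈ X, ‖(((q * (2 ^ (j x) / q) : ℕ) : ℂ) ^ d)⁻¹ *
        app (kerT k (q * (2 ^ (j x) / q)) ((a : ℝ) / q)) E x‖ ^ 2 ≤ C₁ * ∑ z ∈ G, g z ^ 2 := by
    refine le_trans (Finset.sum_le_sum fun x _ => ?_) hM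
    exact pow_le_pow_left₀ (norm_nonneg _) (hpt x) 2
  have hBES' := hBES d (box d q) E G K hKbox
  set B : ℝ := (C₃ * (q : ℝ) ^ (-(1 / (k : ℝ)) + ε)) with hB
  have hB0 : 0 ≤ B := by positivity
  have hprod : ∀ ξ : Fin d → ℝ,
      ‖∑ y ∈ box d q, K y * ee (∑ i, (y i : ℝ) * ξ i)‖ ≤ B ^ d := by
    intro ξ
    have := prod_pq k q d a ξ
    rw [hK]
    simp only
    rw [this, norm_prod]
    calc ∏ ν, ‖pq k a q (ξ ν)‖ ≤ ∏ _ν : Fin d, B := by
          refine Finset.prod_le_prod (fun _ _ => norm_nonneg _) fun ν _ => ?_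
          refine (hC₀ q a (ξ ν) hq hcop).trans ?_
          rw [hB]
          exact mul_le_mul_of_nonneg_right (le_max_left _ _) (by positivity)
      _ = B ^ d := by simp
  have hcont1 : Continuous fun ξ : Fin d → ℝ =>
      ‖∑ y ∈ box d q, K y * ee (∑ i, (y i : ℝ) * ξ i)‖ ^ 2 * ‖∑ z ∈ E, ee (∑ i, (z i : ℝ) * ξ i)‖ ^ 2 := by
    have := continuous_ee
    fun_prop
  have hcont2 : Continuous fun ξ : Fin d → ℝ =>
      B ^ (2 * d) * ‖∑ z ∈ E, ee (∑ i, (z i : ℝ) * ξ i)‖ ^ 2 := by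
    have := continuous_ee
    fun_prop
  have hcompact : IsCompact (Set.pi Set.univ (fun _ : Fin d => Set.Icc (0 : ℝ) 1)) :=
    isCompact_univ_pi fun _ => isCompact_Icc
  have hint : ∫ ξ in Set.pi Set.univ (fun _ : Fin d => Set.Icc (0 : ℝ) 1),
        ‖∑ y ∈ box d q, K y * ee (∑ i, (y i : ℝ) * ξ i)‖ ^ 2 *
          ‖∑ z ∈ E, ee (∑ i, (z i : ℝ) * ξ i)‖ ^ 2 ≤ B ^ (2 * d) * E.card := by
    calc _ ≤ ∫ ξ in Set.pi Set.univ (fun _ : Fin d => Set.Icc (0 : ℝ) 1),
          B ^ (2 * d) * ‖∑ z ∈ E, ee (∑ i, (z i : ℝ) * ξ i)‖ ^ 2 := by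
          refine setIntegral_mono (hcont1.continuousOn.integrableOn_compact hcompact)
            (hcont2.continuousOn.integrableOn_compact hcompact) fun ξ => ?_
          simp only
          refine mul_le_mul_of_nonneg_right ?_ (by positivity)
          rw [mul_comm 2 d, pow_mul]
          exact pow_le_pow_left₀ (norm_nonneg _) (hprod ξ) 2
      _ = B ^ (2 * d) * E.card := by
          rw [integral_const_mul, hPAR]
  have hsumG : ∑ z ∈ G, g z ^ 2 ≤ B ^ (2 * d) * E.card := hBES'.trans hint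
  have hBpow : B ^ (2 * d) = C₃ ^ (2 * d) * (q : ℝ) ^ (-(2 * (d : ℝ) / k) + 2 * d * ε) := by
    rw [hB, mul_pow]
    congr 1
    rw [← Real.rpow_natCast, ← Real.rpow_mul hq0.le]
    congr 1
    push_cast
    ring
  calc _ ≤ C₁ * ∑ z ∈ G, g z ^ 2 := hstep1
    _ ≤ C₂ * ∑ z ∈ G, g z ^ 2 := by
        refine mul_le_mul_of_nonneg_right (le_max_left _ _) ?_
        exact Finset.sum_nonneg fun _ _ => by positivity
    _ ≤ C₂ * (B ^ (2 * d) * E.card) := mul_le_mul_of_nonneg_left hsumG (le_max_right _ _)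
    _ = _ := by rw [hBpow]; ring

end Pool.Agent.Helper42.KS.PkLF
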