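import Pool.Agent.Helper42.KS.Goals

set_option autoImplicit false

namespace Pool.Agent.Helper42.KS.PkMIN1

open MeasureTheory
open scoped ENNReal NNReal

lemma norm_ee (x : ℝ) : ‖ee x‖ = 1 := by
  unfold ee
  rw [Complex.norm_exp_ofReal_mul_I]

lemma fS_le (k R : ℕ) (α ξ : ℝ) : ‖fS k R α ξ‖ ≤ R := by
  unfold fS
  refine (norm_sum_le _ _).trans ?_
  simp [norm_ee]

lemma fS_eq (k R : ℕ) (hk : 2 ≤ k) (α ξ : ℝ) :
    fS k R α ξ = ∑ x ∈ Finset.Ico (0 : ℤ) (R : ℤ),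
      ee ((Polynomial.C α * Polynomial.X ^ k + Polynomial.C ξ * Polynomial.X : Polynomial ℝ).eval (x : ℝ)) := by
  have hIco : ∀ f : ℤ → ℂ, ∑ y ∈ Finset.Ico (0 : ℤ) (R : ℤ), f y = ∑ y ∈ Finset.range R, f (y : ℤ) := by
    intro f
    have : Finset.Ico (0 : ℤ) (R : ℤ) = (Finset.range R).map Nat.castEmbedding := by
      ext z
      simp only [Finset.mem_Ico, Finset.mem_map, Finset.mem_range, Nat.castEmbedding_apply]
      constructor
      · rintro ⟨h1, h2⟩
        exact ⟨z.toNat, by omega, by simp [Int.toNat_of_nonneg h1]⟩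
      · rintro ⟨n, hn, rfl⟩
        constructor
        · positivity
        · exact_mod_cast hn
    rw [this, Finset.sum_map]
    rfl
  rw [hIco]
  unfold fS
  refine Finset.sum_congr rfl fun y _ => ?_
  simp

theorem thm : G_WEYL → G_MIN1 := by
  intro hW k hk
  have hσ : (2 : ℝ) ^ k * (1 / (2 : ℝ) ^ (k + 4)) = 1 / 16 := by
    rw [pow_add]
    field_simp
    norm_num
  obtain ⟨R₀, hR₀⟩ := hW k (1 / (2 : ℝ) ^ (k + 4)) hk (by positivity) (by rw [hσ]; norm_num)
  refine ⟨max 1 (R₀ : ℝ), ?_⟩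
  intro R α ξ hR hmin
  have hRpos : (0 : ℝ) < R := by exact_mod_cast hR
  have hR1 : (1 : ℝ) ≤ R := by exact_mod_cast hR
  have hσ1 : (1 : ℝ) / (2 : ℝ) ^ (k + 4) ≤ 1 := by
    rw [div_le_one (by positivity)]
    exact one_le_pow₀ (by norm_num)
  have hpow1 : (1 : ℝ) ≤ (R : ℝ) ^ (1 - 1 / (2 : ℝ) ^ (k + 4)) :=
    Real.one_le_rpow hR1 (by linarith)
  rcases lt_or_ge R R₀ with hlt | hge
  · calc ‖fS k R α ξ‖ ≤ R := fS_le k R α ξ
      _ ≤ R₀ := by exact_mod_cast hlt.le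
      _ ≤ max 1 (R₀ : ℝ) := le_max_right _ _
      _ = max 1 (R₀ : ℝ) * 1 := by ring
      _ ≤ max 1 (R₀ : ℝ) * (R : ℝ) ^ (1 - 1 / (2 : ℝ) ^ (k + 4)) :=
          mul_le_mul_of_nonneg_left hpow1 (by positivity)
  · by_contra hcon
    push Not at hcon
    have hbig : (R : ℝ) ^ (1 - 1 / (2 : ℝ) ^ (k + 4)) ≤ ‖fS k R α ξ‖ := by
      refine le_trans ?_ hcon.le
      calc (R : ℝ) ^ (1 - 1 / (2 : ℝ) ^ (k + 4)) = 1 * (R : ℝ) ^ (1 - 1 / (2 : ℝ) ^ (k + 4)) := by ring
        _ ≤ _ := mul_le_mul_of_nonneg_right (le_max_left _ _) (by positivity)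
    rw [fS_eq k R hk] at hbig
    have hdeg : (Polynomial.C α * Polynomial.X ^ k + Polynomial.C ξ * Polynomial.X : Polynomial ℝ).natDegree ≤ k := by
      refine (Polynomial.natDegree_add_le _ _).trans (max_le ?_ ?_)
      · exact Polynomial.natDegree_C_mul_X_pow_le _ _
      · refine (Polynomial.natDegree_C_mul_le _ _).trans ?_
        rw [Polynomial.natDegree_X]
        omega
    have hcoeff : (Polynomial.C α * Polynomial.X ^ k + Polynomial.C ξ * Polynomial.X : Polynomial ℝ).coeff k = α := by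
      rw [Polynomial.coeff_add, Polynomial.coeff_C_mul_X_pow, if_pos rfl, Polynomial.coeff_C_mul,
        Polynomial.coeff_X, if_neg (by omega)]
      simp
    obtain ⟨q, hq1, hqR, a, ha⟩ := hR₀ R hge _ hdeg 0 R (by simp) hbig
    rw [hcoeff, hσ] at ha
    rw [hσ] at hqR
    have hmin' := hmin q hq1 hqR a
    have hq0 : (0 : ℝ) < q := by exact_mod_cast hq1
    have hq1' : (1 : ℝ) ≤ q := by exact_mod_cast hq1
    have h2 : |α - a / q| = |q * α - a| / q := by
      rw [← abs_of_pos hq0, ← abs_div, abs_of_pos hq0]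
      congr 1
      field_simp
    rw [h2] at hmin'
    have h3 : |q * α - a| / q ≤ (R : ℝ) ^ (-(k : ℝ) + 1 / 16) := by
      calc |q * α - a| / q ≤ |q * α - a| / 1 :=
            div_le_div_of_nonneg_left (abs_nonneg _) one_pos hq1'
        _ = |q * α - a| := by rw [div_one]
        _ ≤ _ := ha
    linarith

end Pool.Agent.Helper42.KS.PkMIN1
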